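import Mathlib

set_option autoImplicit false

namespace Run7.h181.Gersten



/-- Marshall Hall's argument: the partial action of the generators of a free group on a finite
subset of a set on which it acts extends to an action on that finite subset. -/
theorem exists_finite_action {α X : Type} [DecidableEq X] [MulAction (FreeGroup α) X]
    (S : Finset X) :
    ∃ ψ : FreeGroup α →* Equiv.Perm S,
      ∀ (a : α) (s : S) (h : FreeGroup.of a • (s : X) ∈ S),
        ψ (FreeGroup.of a) s = ⟨FreeGroup.of a • (s : X), h⟩ := by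
  classical
  have key : ∀ a : α, ∃ p : Equiv.Perm S, ∀ (s : S) (h : FreeGroup.of a • (s : X) ∈ S),
      p s = ⟨FreeGroup.of a • (s : X), h⟩ := by
    intro a
    let e : {s : S // FreeGroup.of a • (s : X) ∈ S} ≃
        {s : S // (FreeGroup.of a)⁻¹ • (s : X) ∈ S} :=
      { toFun := fun s => ⟨⟨FreeGroup.of a • (s.1 : X), s.2⟩, by simp⟩
        invFun := fun s => ⟨⟨(FreeGroup.of a)⁻¹ • (s.1 : X), s.2⟩, by simp⟩
        left_inv := fun s => by ext; simp
        right_inv := fun s => by ext; simp }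
    refine ⟨e.extendSubtype, fun s h => ?_⟩
    rw [Equiv.extendSubtype_apply_of_mem e s h]; rfl
  choose p hp using key
  exact ⟨FreeGroup.lift p, fun a s h => by rw [FreeGroup.lift_apply_of]; exact hp a s h⟩

theorem action_of_word {α X : Type} [DecidableEq X] [MulAction (FreeGroup α) X]
    (S : Finset X) (ψ : FreeGroup α →* Equiv.Perm S)
    (hψ : ∀ (a : α) (s : S) (h : FreeGroup.of a • (s : X) ∈ S),
        ψ (FreeGroup.of a) s = ⟨FreeGroup.of a • (s : X), h⟩)
    (x : S) (L : List (α × Bool))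
    (hL : ∀ L' ∈ L.tails, FreeGroup.mk L' • (x : X) ∈ S) :
    ((ψ (FreeGroup.mk L) x : S) : X) = FreeGroup.mk L • (x : X) := by
  induction L with
  | nil =>
    have h1 : (FreeGroup.mk ([] : List (α × Bool))) = 1 := rfl
    rw [h1]; simp
  | cons c L ih =>
    have hL' : ∀ L' ∈ L.tails, FreeGroup.mk L' • (x : X) ∈ S := by
      intro L' h'
      apply hL
      simp only [List.tails, List.mem_cons]
      exact Or.inr h'
    have ih' := ih hL'
    have hmem : FreeGroup.mk L • (x : X) ∈ S := hL' L (by simp)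
    have hmem2 : FreeGroup.mk (c :: L) • (x : X) ∈ S := hL _ (by simp)
    have hval : ψ (FreeGroup.mk L) x = ⟨FreeGroup.mk L • (x : X), hmem⟩ := Subtype.ext ih'
    obtain ⟨a, b⟩ := c
    cases b with
    | true =>
      have h1 : FreeGroup.mk ((a, true) :: L) = FreeGroup.of a * FreeGroup.mk L := by
        rw [FreeGroup.of, FreeGroup.mul_mk]; rfl
      rw [h1, map_mul, Equiv.Perm.mul_apply, hval]
      rw [hψ a ⟨FreeGroup.mk L • (x : X), hmem⟩ (by
        show FreeGroup.of a • (FreeGroup.mk L • (x : X)) ∈ S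
        rw [← mul_smul, ← h1]; exact hmem2)]
      exact (mul_smul _ _ _).symm
    | false =>
      have h1 : FreeGroup.mk ((a, false) :: L) = (FreeGroup.of a)⁻¹ * FreeGroup.mk L := by
        rw [FreeGroup.of, FreeGroup.inv_mk, FreeGroup.mul_mk]; rfl
      rw [h1, map_mul, Equiv.Perm.mul_apply, hval, map_inv]
      have h2 : ψ (FreeGroup.of a) ⟨FreeGroup.mk ((a, false) :: L) • (x : X), hmem2⟩ =
          ⟨FreeGroup.mk L • (x : X), hmem⟩ := by
        rw [hψ a ⟨FreeGroup.mk ((a, false) :: L) • (x : X), hmem2⟩ (by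
          show FreeGroup.of a • (FreeGroup.mk ((a, false) :: L) • (x : X)) ∈ S
          rw [← mul_smul, h1, mul_inv_cancel_left]; exact hmem)]
        apply Subtype.ext
        show FreeGroup.of a • (FreeGroup.mk ((a, false) :: L) • (x : X)) = _
        rw [← mul_smul, h1, mul_inv_cancel_left]
      rw [← h2, ← Equiv.Perm.mul_apply, inv_mul_cancel, Equiv.Perm.one_apply]
      show FreeGroup.mk ((a, false) :: L) • (x : X) = _
      rw [h1]

/-- Free groups are cyclic subgroup separable. -/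
theorem free_css {α : Type} [DecidableEq α] (g h : FreeGroup α)
    (hgh : h ∉ Subgroup.zpowers g) :
    ∃ (Q : Type) (_ : Group Q) (_ : Finite Q) (q : FreeGroup α →* Q),
      q h ∉ Subgroup.zpowers (q g) := by
  classical
  let X := FreeGroup α ⧸ Subgroup.zpowers g
  let x0 : X := ((1 : FreeGroup α) : X)
  let S : Finset X := ((g.toWord.tails ++ h.toWord.tails).map
    (fun L => FreeGroup.mk L • x0)).toFinset
  have hS : ∀ L, L ∈ g.toWord.tails ∨ L ∈ h.toWord.tails → FreeGroup.mk L • x0 ∈ S := by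
    intro L hL
    simp only [S, List.mem_toFinset, List.mem_map, List.mem_append]
    exact ⟨L, hL, rfl⟩
  obtain ⟨ψ, hψ⟩ := exists_finite_action (α := α) S
  have hx0 : x0 ∈ S := by
    have := hS [] (Or.inl (by simp))
    have h1 : (FreeGroup.mk ([] : List (α × Bool))) = 1 := rfl
    rwa [h1, one_smul] at this
  have hg := action_of_word S ψ hψ ⟨x0, hx0⟩ g.toWord (fun L' hL' => hS L' (Or.inl hL'))
  have hh := action_of_word S ψ hψ ⟨x0, hx0⟩ h.toWord (fun L' hL' => hS L' (Or.inr hL'))
  rw [FreeGroup.mk_toWord] at hg hh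
  have e1 : g • x0 = x0 := by
    show ((g * 1 : FreeGroup α) : X) = ((1 : FreeGroup α) : X)
    rw [QuotientGroup.eq]
    simp
  have e2 : h • x0 ≠ x0 := by
    show ((h * 1 : FreeGroup α) : X) ≠ ((1 : FreeGroup α) : X)
    rw [Ne, QuotientGroup.eq]
    simpa using hgh
  refine ⟨Equiv.Perm S, inferInstance, inferInstance, ψ, ?_⟩
  rintro ⟨k, hk⟩
  have e3 : ψ g ⟨x0, hx0⟩ = ⟨x0, hx0⟩ := Subtype.ext (by rw [hg]; exact e1)
  have e4 : (ψ g ^ k) ⟨x0, hx0⟩ = ⟨x0, hx0⟩ := by
    exact Equiv.Perm.zpow_apply_eq_self_of_apply_eq_self e3 k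
  apply e2
  have e5 : ψ h ⟨x0, hx0⟩ = ⟨x0, hx0⟩ := by
    rw [← hk]; exact e4
  rw [← hh, e5]

end Run7.h181.Gersten
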