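import Pool.Agent.Run7.h181.Gersten.Group
import Pool.Agent.Run7.h181.Gersten.FreeCSS

set_option autoImplicit false

namespace Run7.h181.Gersten

open Subgroup

/-- The finite `G`-set attached to a finite quotient of the free group. -/
def actHom (Q : Type) [Group Q] : G →* Equiv.Perm ((F →* Q) × Q) :=
  SemidirectProduct.lift
    { toFun := fun w =>
        { toFun := fun p => (p.1, p.1 w * p.2)
          invFun := fun p => (p.1, (p.1 w)⁻¹ * p.2)
          left_inv := fun p => by simp
          right_inv := fun p => by simp }
      map_one' := by ext p <;> simp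
      map_mul' := fun x y => by ext p <;> simp [mul_assoc] }
    { toFun := fun n =>
        { toFun := fun p => (p.1.comp (θ (-n.toAdd)), p.2)
          invFun := fun p => (p.1.comp (θ n.toAdd), p.2)
          left_inv := fun p => by
            ext
            · simp [θ_apply, θ_zero_apply]
            · simp
          right_inv := fun p => by
            ext
            · simp [θ_apply, θ_zero_apply]
            · simp }
      map_one' := by
        ext p
        · simp [θ_zero_apply]
        · simp
      map_mul' := fun x y => by
        ext p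
        · simp [θ_apply, add_comm]
        · simp }
    (by
      intro n
      ext w p
      · simp [θ_apply, θ_zero_apply]
      · simp)

theorem actHom_inl (Q : Type) [Group Q] (w : F) (p : (F →* Q) × Q) :
    actHom Q (SemidirectProduct.inl w) p = (p.1, p.1 w * p.2) := by
  simp [actHom]

instance finite_hom (Q : Type) [Group Q] [Finite Q] : Finite (F →* Q) :=
  Finite.of_equiv (Fin 3 → Q) (FreeGroup.lift (α := Fin 3) (β := Q))

/-- The subgroup of permutations preserving a set. -/
def setStab {Y : Type} (S : Set Y) : Subgroup (Equiv.Perm Y) where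
  carrier := {π | ∀ p, π p ∈ S ↔ p ∈ S}
  one_mem' := fun p => Iff.rfl
  mul_mem' := fun {x y} hx hy p => (hx (y p)).trans (hy p)
  inv_mem' := fun {x} hx p => by
    have := hx (x⁻¹ p)
    rw [← Equiv.Perm.mul_apply, mul_inv_cancel, Equiv.Perm.one_apply] at this
    exact this.symm

/-- The reduction of the `ℤ`-coordinate modulo `m`. -/
def modHom (m : ℕ) : G →* Multiplicative (ZMod m) :=
  (AddMonoidHom.toMultiplicative (Int.castAddHom (ZMod m))).comp SemidirectProduct.rightHom

theorem mem_modHom_ker (m : ℕ) (x : G) : x ∈ (modHom m).ker ↔ (m : ℤ) ∣ x.right.toAdd := by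
  rw [MonoidHom.mem_ker, ← ZMod.intCast_zmod_eq_zero_iff_dvd]
  exact Iff.rfl

theorem modHom_ker_finiteIndex (m : ℕ) (hm : m ≠ 0) : (modHom m).ker.FiniteIndex := by
  have : NeZero m := ⟨hm⟩
  have : Finite (Multiplicative (ZMod m)) := inferInstanceAs (Finite (ZMod m))
  apply Subgroup.finiteIndex_ker

theorem eq_inl {g : G} (h : g.right = 1) : g = SemidirectProduct.inl g.left := by
  ext
  · simp
  · simp [h]

/-- Gersten's group is cyclic subgroup separable. -/
theorem G_css (g h : G) (hgh : h ∉ zpowers g) :
    ∃ K : Subgroup G, K.FiniteIndex ∧ zpowers g ≤ K ∧ h ∉ K := by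
  classical
  by_cases hgr : g.right = 1
  · -- `g` lies in the free group
    have hg := eq_inl hgr
    by_cases hhr : h.right = 1
    · have hh := eq_inl hhr
      have hn : h.left ∉ zpowers g.left := by
        rintro ⟨k, hk⟩
        apply hgh
        refine ⟨k, ?_⟩
        simp only at hk ⊢
        rw [hg, hh, ← map_zpow, hk]
      obtain ⟨Q, _, _, q, hq⟩ := free_css g.left h.left hn
      let Y := (F →* Q) × Q
      let P := actHom Q
      let S : Set Y := {p | p.1 = q ∧ p.2 ∈ zpowers (q g.left)}
      let K' : Subgroup (Equiv.Perm Y) := setStab S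
      have hker : P.ker ≤ K'.comap P := by
        intro x hx
        rw [MonoidHom.mem_ker] at hx
        rw [Subgroup.mem_comap, hx]
        exact K'.one_mem
      have : P.ker.FiniteIndex := by
        apply Subgroup.finiteIndex_ker
      refine ⟨K'.comap P, Subgroup.finiteIndex_of_le hker, ?_, ?_⟩
      · rw [zpowers_le, Subgroup.mem_comap]
        rintro ⟨p1, p2⟩
        rw [hg, actHom_inl]
        simp only [S, Set.mem_setOf_eq]
        constructor
        · rintro ⟨rfl, h2⟩
          refine ⟨rfl, ?_⟩
          have := (zpowers (p1 g.left)).mul_mem ((zpowers (p1 g.left)).inv_mem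
            (mem_zpowers (p1 g.left))) h2
          simpa using this
        · rintro ⟨rfl, h2⟩
          exact ⟨rfl, (zpowers (p1 g.left)).mul_mem (mem_zpowers _) h2⟩
      · rw [Subgroup.mem_comap]
        intro hcon
        have := (hcon (q, 1)).2 ⟨rfl, (zpowers _).one_mem⟩
        rw [hh, actHom_inl] at this
        simp only [S, Set.mem_setOf_eq, mul_one, true_and] at this
        exact hq this
    · have hne : h.right.toAdd ≠ 0 := fun h0 => hhr (Multiplicative.toAdd.injective h0)
      refine ⟨(modHom (h.right.toAdd.natAbs + 1)).ker, modHom_ker_finiteIndex _ (by omega), ?_, ?_⟩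
      · rw [zpowers_le, mem_modHom_ker, hgr]
        simp
      · rw [mem_modHom_ker]
        intro hd
        have := Int.le_of_dvd (abs_pos.2 hne) ((dvd_abs _ _).2 hd)
        push_cast at this
        omega
  · set k : ℤ := g.right.toAdd with hk
    have hk0 : k ≠ 0 := fun h0 => hgr (Multiplicative.toAdd.injective h0)
    by_cases hd : k ∣ h.right.toAdd
    · obtain ⟨j, hj⟩ := hd
      set u : G := (g ^ j)⁻¹ * h with hu
      have hright : ∀ (i : ℤ), (g ^ i).right.toAdd = k * i := by
        intro i
        have : (g ^ i).right = g.right ^ i := by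
          have := map_zpow (SemidirectProduct.rightHom : G →* Multiplicative ℤ) g i
          exact this
        rw [this, toAdd_zpow, smul_eq_mul, mul_comm, hk]
      have hur : u.right = 1 := by
        apply Multiplicative.toAdd.injective
        rw [hu, SemidirectProduct.mul_right, SemidirectProduct.inv_right, toAdd_mul, toAdd_inv,
          hright, hj]
        simp
      have hu1 : u.left ≠ 1 := by
        intro h1
        have h2 : u = 1 := by
          rw [eq_inl hur, h1, map_one]
        rw [hu, inv_mul_eq_one] at h2
        exact hgh ⟨j, h2⟩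
      have hn : u.left ∉ zpowers (1 : F) := by
        rw [Subgroup.zpowers_one_eq_bot, Subgroup.mem_bot]
        exact hu1
      obtain ⟨Q, _, _, q, hq⟩ := free_css (1 : F) u.left hn
      have hq1 : q u.left ≠ 1 := by
        intro h1
        apply hq
        rw [h1]
        exact one_mem _
      let P := actHom Q
      have hPu : P u ≠ 1 := by
        intro h1
        have h2 := congrArg (fun π => (π (q, 1)).2) h1
        rw [eq_inl hur, actHom_inl] at h2
        simp only [mul_one, Equiv.Perm.one_apply] at h2
        exact hq1 h2
      let K : Subgroup G :=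
        { carrier := {x | ∃ i : ℤ, x.right.toAdd = k * i ∧ P x = P g ^ i}
          one_mem' := ⟨0, by simp, by simp⟩
          mul_mem' := by
            rintro x y ⟨i, hi1, hi2⟩ ⟨i', hi1', hi2'⟩
            refine ⟨i + i', ?_, ?_⟩
            · rw [SemidirectProduct.mul_right, toAdd_mul, hi1, hi1', mul_add]
            · rw [map_mul, hi2, hi2', zpow_add]
          inv_mem' := by
            rintro x ⟨i, hi1, hi2⟩
            refine ⟨-i, ?_, ?_⟩
            · rw [SemidirectProduct.inv_right, toAdd_inv, hi1, mul_neg]
            · rw [map_inv, hi2, zpow_neg] }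
      obtain ⟨e, he, hPe⟩ : ∃ e : ℕ, 0 < e ∧ P g ^ e = 1 :=
        ⟨Nat.card (Equiv.Perm ((F →* Q) × Q)), Nat.card_pos, pow_card_eq_one'⟩
      have f1 : P.ker.FiniteIndex := by apply Subgroup.finiteIndex_ker
      have f2 : (modHom (k.natAbs * e)).ker.FiniteIndex :=
        modHom_ker_finiteIndex _ (Nat.mul_ne_zero (by omega) (by omega))
      have hle : P.ker ⊓ (modHom (k.natAbs * e)).ker ≤ K := by
        intro x hx
        rw [Subgroup.mem_inf, MonoidHom.mem_ker, mem_modHom_ker] at hx
        obtain ⟨hx1, hx2⟩ := hx
        have hx3 : k * e ∣ x.right.toAdd := by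
          have : (k * e) ∣ ((k.natAbs * e : ℕ) : ℤ) := by
            push_cast
            exact mul_dvd_mul_right ((dvd_abs k k).2 dvd_rfl) _
          exact this.trans hx2
        obtain ⟨i, hi⟩ := hx3
        refine ⟨e * i, by rw [hi, mul_assoc], ?_⟩
        rw [hx1, zpow_mul, zpow_natCast, hPe, one_zpow]
      refine ⟨K, Subgroup.finiteIndex_of_le hle, ?_, ?_⟩
      · rw [zpowers_le]
        exact ⟨1, by simp [hk], by simp⟩
      · rintro ⟨i, hi1, hi2⟩
        have hij : i = j := by
          rw [hj] at hi1
          exact (mul_left_cancel₀ hk0 hi1).symm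
        apply hPu
        rw [hu, map_mul, map_inv, map_zpow, hi2, hij, inv_mul_cancel]
    · refine ⟨(modHom k.natAbs).ker, modHom_ker_finiteIndex _ (by omega), ?_, ?_⟩
      · rw [zpowers_le, mem_modHom_ker]
        exact Int.natAbs_dvd.2 (by rw [hk])
      · rw [mem_modHom_ker, Int.natAbs_dvd]
        exact hd

end Run7.h181.Gersten
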