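import Mathlib

set_option autoImplicit false

namespace Run7.h181.Gersten

/-- The free group of rank three. -/
abbrev F := FreeGroup (Fin 3)

def a : F := FreeGroup.of 0
def b : F := FreeGroup.of 1
def c : F := FreeGroup.of 2

/-- The `n`-th power of the automorphism `a ↦ a`, `b ↦ b a`, `c ↦ c a ^ 2`. -/
def θ (n : ℤ) : F →* F := FreeGroup.lift ![a, b * a ^ n, c * a ^ (2 * n)]

@[simp] theorem θ_a (n : ℤ) : θ n a = a := by simp [θ, a]
@[simp] theorem θ_b (n : ℤ) : θ n b = b * a ^ n := by
  conv_lhs => rw [b]
  simp [θ]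
@[simp] theorem θ_c (n : ℤ) : θ n c = c * a ^ (2 * n) := by
  conv_lhs => rw [c]
  simp [θ]

theorem F_hom_ext {M : Type} [Monoid M] {f g : F →* M} (h0 : f a = g a) (h1 : f b = g b)
    (h2 : f c = g c) : f = g := by
  apply FreeGroup.ext_hom
  intro i
  fin_cases i
  · exact h0
  · exact h1
  · exact h2

theorem θ_comp (m n : ℤ) : (θ m).comp (θ n) = θ (m + n) := by
  apply F_hom_ext
  · simp
  · simp [zpow_add, mul_assoc]
  · simp [mul_add, zpow_add, mul_assoc]

theorem θ_zero : θ 0 = MonoidHom.id F := by
  apply F_hom_ext <;> simp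

theorem θ_apply (m n : ℤ) (w : F) : θ m (θ n w) = θ (m + n) w := by
  rw [← θ_comp]; rfl

theorem θ_zero_apply (w : F) : θ 0 w = w := by rw [θ_zero]; rfl

/-- The action of `ℤ` on the free group of rank three. -/
def Θ : Multiplicative ℤ →* MulAut F where
  toFun n :=
    { toFun := θ n.toAdd
      invFun := θ (-n.toAdd)
      left_inv := fun w => by rw [θ_apply]; simp [θ_zero_apply]
      right_inv := fun w => by rw [θ_apply]; simp [θ_zero_apply]
      map_mul' := fun x y => map_mul _ x y }
  map_one' := by
    ext w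
    exact θ_zero_apply w
  map_mul' m n := by
    ext w
    exact (θ_apply m.toAdd n.toAdd w).symm

@[simp] theorem Θ_apply (n : Multiplicative ℤ) (w : F) : Θ n w = θ n.toAdd w := rfl

/-- Gersten's group `F₃ ⋊ ℤ`. -/
abbrev G := SemidirectProduct F (Multiplicative ℤ) Θ

/-- The stable letter. -/
def t : G := SemidirectProduct.inr (Multiplicative.ofAdd 1)

def A : G := SemidirectProduct.inl a
def B : G := SemidirectProduct.inl b
def C : G := SemidirectProduct.inl c

theorem t_conj_B : B⁻¹ * t * B = A * t := by
  apply mul_left_cancel (a := B)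
  simp only [← mul_assoc, mul_inv_cancel, one_mul]
  ext
  · simp [t, A, B]
  · simp [t, A, B]

theorem t_conj_C : C⁻¹ * t * C = A ^ 2 * t := by
  apply mul_left_cancel (a := C)
  simp only [← mul_assoc, mul_inv_cancel, one_mul]
  ext
  · simp only [t, A, C]
    rw [← map_pow]
    simp only [SemidirectProduct.mul_left, SemidirectProduct.left_inr, SemidirectProduct.right_inr,
      SemidirectProduct.left_inl, SemidirectProduct.right_inl, Θ_apply]
    simp [sq, zpow_ofNat]
  · simp [t, A, C, sq]

theorem A_comm_t : Commute A t := by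
  show A * t = t * A
  ext
  · simp [t, A]
  · simp [t, A]

end Run7.h181.Gersten
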