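import Pool.Agent.Run7.h181.Gersten.Group

set_option autoImplicit false

namespace Run7.h181.Gersten

open Subgroup

/-- If `K` has finite index in a group, then some positive power of each element lies in
the normal core of `K`. -/
theorem exists_pow_core {H : Type} [Group H] (K : Subgroup H) [K.FiniteIndex] :
    ∃ m : ℕ, 0 < m ∧ ∀ x : H, x ^ m ∈ K.normalCore := by
  haveI : Finite (H ⧸ K.normalCore) := inferInstance
  refine ⟨Nat.card (H ⧸ K.normalCore), Nat.card_pos, fun x => ?_⟩
  rw [← QuotientGroup.eq_one_iff]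
  rw [QuotientGroup.mk_pow]
  exact pow_card_eq_one'

/-- Gersten's argument: in a group containing commuting `a`, `t` such that `t`, `a t`, `a ^ 2 t`
are conjugate, no finite index subgroup containing `a` has a homomorphism to `ℤ` which is non
zero on `a`. -/
theorem gersten {H : Type} [Group H] (a t b c : H) (hat : Commute a t)
    (hb : b⁻¹ * t * b = a * t) (hc : c⁻¹ * t * c = a ^ 2 * t)
    (K : Subgroup H) [K.FiniteIndex] (haK : a ∈ K) (ρ : K →* Multiplicative ℤ)
    (hρ : ρ ⟨a, haK⟩ ≠ 1) : False := by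
  classical
  obtain ⟨m, hm, hmK⟩ := exists_pow_core K
  set N := K.normalCore with hN
  haveI : N.Normal := inferInstance
  haveI : Finite (H ⧸ N) := inferInstance
  haveI : Fintype (H ⧸ N) := Fintype.ofFinite _
  have hNK : N ≤ K := Subgroup.normalCore_le K
  -- the restriction of `ρ` to `N`, as an additive function on `H`
  let f : H → ℤ := fun x => if h : x ∈ K then (ρ ⟨x, h⟩).toAdd else 0
  have f_mul : ∀ x y : H, x ∈ K → y ∈ K → f (x * y) = f x + f y := by
    intro x y hx hy
    have hxy : x * y ∈ K := K.mul_mem hx hy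
    simp only [f, hx, hy, hxy, dif_pos]
    have : (⟨x * y, hxy⟩ : K) = ⟨x, hx⟩ * ⟨y, hy⟩ := rfl
    rw [this, map_mul, toAdd_mul]
  have f_one : f 1 = 0 := by
    have := f_mul 1 1 K.one_mem K.one_mem
    simp at this; exact this
  have f_inv : ∀ x : H, x ∈ K → f x⁻¹ = - f x := by
    intro x hx
    have := f_mul x x⁻¹ hx (K.inv_mem hx)
    rw [mul_inv_cancel, f_one] at this
    omega
  have f_conj : ∀ x y : H, x ∈ K → y ∈ K → f (x * y * x⁻¹) = f y := by
    intro x y hx hy
    rw [f_mul _ _ (K.mul_mem hx hy) (K.inv_mem hx), f_mul _ _ hx hy, f_inv x hx]; ring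
  -- coefficient functions
  let φ : H → (H ⧸ N) → ℤ := fun x q => f (q.out⁻¹ * x ^ m * q.out)
  have conjN : ∀ (x u : H), u⁻¹ * x ^ m * u ∈ N := by
    intro x u
    have := Subgroup.Normal.conj_mem (inferInstance : N.Normal) (x ^ m) (hmK x) u⁻¹
    simpa using this
  have φ_mul : ∀ (x y : H) (q : H ⧸ N), Commute x y → φ (x * y) q = φ x q + φ y q := by
    intro x y q hxy
    simp only [φ]
    rw [hxy.mul_pow, ← f_mul _ _ (hNK (conjN x _)) (hNK (conjN y _))]
    congr 1
    group
  have φ_rep : ∀ (x : H) (u : H), f (u⁻¹ * x ^ m * u) = φ x (u : H ⧸ N) := by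
    intro x u
    simp only [φ]
    have h1 : ((u : H ⧸ N)).out⁻¹ * u ∈ N := by
      rw [← QuotientGroup.eq]
      exact QuotientGroup.out_eq' _
    set v := ((u : H ⧸ N)).out with hv
    have h2 : v⁻¹ * x ^ m * v = (v⁻¹ * u) * (u⁻¹ * x ^ m * u) * (v⁻¹ * u)⁻¹ := by group
    rw [h2, f_conj _ _ (hNK h1) (hNK (conjN x u))]
  -- invariance of the sum of squares
  let Q : H → ℤ := fun x => ∑ q : H ⧸ N, (φ x q) ^ 2
  have Q_conj : ∀ x u : H, Q (u⁻¹ * x * u) = Q x := by
    intro x u
    simp only [Q]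
    apply Fintype.sum_equiv (Equiv.mulLeft (u : H ⧸ N))
    intro q
    simp only [Equiv.coe_mulLeft]
    congr 1
    have h1 : ((u * q.out : H) : H ⧸ N) = (u : H ⧸ N) * q := by
      rw [QuotientGroup.mk_mul, QuotientGroup.out_eq']
    rw [← h1, ← φ_rep]
    simp only [φ]
    congr 1
    have : (u⁻¹ * x * u) ^ m = u⁻¹ * x ^ m * u := by
      have := conj_pow (i := m) (a := u⁻¹) (b := x)
      simpa using this
    rw [this]; group
  have Qb := Q_conj t b
  have Qc := Q_conj t c
  rw [hb] at Qb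
  rw [hc] at Qc
  have φb : ∀ q, φ (a * t) q = φ a q + φ t q := fun q => φ_mul a t q hat
  have φc : ∀ q, φ (a ^ 2 * t) q = 2 * φ a q + φ t q := by
    intro q
    rw [φ_mul (a ^ 2) t q (hat.pow_left 2), sq, φ_mul a a q (Commute.refl a)]; ring
  have Eb : ∑ q : H ⧸ N, ((φ a q) ^ 2 + 2 * (φ a q * φ t q)) = 0 := by
    have : Q (a * t) - Q t = ∑ q : H ⧸ N, ((φ a q) ^ 2 + 2 * (φ a q * φ t q)) := by
      simp only [Q, φb]
      rw [← Finset.sum_sub_distrib]
      apply Finset.sum_congr rfl; intro q _; ring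
    rw [← this, Qb]; ring
  have Ec : ∑ q : H ⧸ N, (4 * (φ a q) ^ 2 + 4 * (φ a q * φ t q)) = 0 := by
    have : Q (a ^ 2 * t) - Q t = ∑ q : H ⧸ N, (4 * (φ a q) ^ 2 + 4 * (φ a q * φ t q)) := by
      simp only [Q, φc]
      rw [← Finset.sum_sub_distrib]
      apply Finset.sum_congr rfl; intro q _; ring
    rw [← this, Qc]; ring
  rw [Finset.sum_add_distrib, ← Finset.mul_sum] at Eb
  rw [Finset.sum_add_distrib, ← Finset.mul_sum, ← Finset.mul_sum] at Ec
  have Ea : ∑ q : H ⧸ N, (φ a q) ^ 2 = 0 := by linarith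
  have h0 : φ a ((1 : H) : H ⧸ N) = 0 := by
    have := (Finset.sum_eq_zero_iff_of_nonneg (fun q _ => sq_nonneg (φ a q))).1 Ea
      ((1 : H) : H ⧸ N) (Finset.mem_univ _)
    exact pow_eq_zero_iff (two_ne_zero) |>.1 this
  rw [← φ_rep] at h0
  simp only [inv_one, one_mul, mul_one] at h0
  have hfa : ∀ n : ℕ, f (a ^ n) = n * f a := by
    intro n
    induction n with
    | zero => simp [f_one]
    | succ n ih => rw [pow_succ, f_mul _ _ (K.pow_mem haK n) haK, ih]; push_cast; ring
  rw [hfa m] at h0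
  have hfa0 : f a = 0 := by
    rcases mul_eq_zero.1 h0 with h | h
    · exfalso; have : m = 0 := by exact_mod_cast h
      omega
    · exact h
  apply hρ
  simp only [f, haK, dif_pos] at hfa0
  exact Multiplicative.toAdd.injective (by rw [hfa0]; rfl)

end Run7.h181.Gersten
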