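import Pool.Agent.Run7.h181.Gersten.Tree

set_option autoImplicit false

namespace Run7.h181.Gersten

open Subgroup MulAction

/-- The homomorphism on the free group counting `a`. -/
def αF : F →* Multiplicative ℤ :=
  FreeGroup.lift ![Multiplicative.ofAdd 1, 1, 1]

@[simp] theorem αF_a : αF a = Multiplicative.ofAdd 1 := by simp [αF, a]

theorem a_zpow_inj {i j : ℤ} (h : a ^ i = a ^ j) : i = j := by
  have := congrArg (fun x => (αF x).toAdd) h
  simpa using this

/-- The vertex group as an image of `ℤ²`. -/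
def vh : Multiplicative (Fin 2 → ℤ) →* G where
  toFun v := ⟨a ^ (v.toAdd 0), Multiplicative.ofAdd (v.toAdd 1)⟩
  map_one' := by
    apply SemidirectProduct.ext
    · exact zpow_zero a
    · rfl
  map_mul' x y := by
    apply SemidirectProduct.ext
    · show a ^ (x.toAdd 0 + y.toAdd 0) = a ^ (x.toAdd 0) * θ (x.toAdd 1) (a ^ (y.toAdd 0))
      rw [map_zpow, θ_a, zpow_add]
    · rfl

theorem vh_mem (v : Multiplicative (Fin 2 → ℤ)) : vh v ∈ H := mem_H.2 ⟨v.toAdd 0, rfl⟩

/-- The vertex group is free abelian of rank two. -/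
noncomputable def vEquiv : Multiplicative (Fin 2 → ℤ) ≃* H :=
  MulEquiv.ofBijective (vh.codRestrict H vh_mem) (by
    constructor
    · intro x y hxy
      have h1 : vh x = vh y := congrArg Subtype.val hxy
      have h2 : a ^ (x.toAdd 0) = a ^ (y.toAdd 0) := congrArg SemidirectProduct.left h1
      have h3 : Multiplicative.ofAdd (x.toAdd 1) = Multiplicative.ofAdd (y.toAdd 1) :=
        congrArg SemidirectProduct.right h1
      apply Multiplicative.toAdd.injective
      funext i
      fin_cases i
      · exact a_zpow_inj h2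
      · exact Multiplicative.ofAdd.injective h3
    · rintro ⟨x, hx⟩
      obtain ⟨i, hi⟩ := mem_H.1 hx
      refine ⟨Multiplicative.ofAdd ![i, x.right.toAdd], ?_⟩
      apply Subtype.ext
      show vh _ = x
      apply SemidirectProduct.ext
      · exact hi
      · rfl)

theorem stab_one : stabilizer G ((1 : G) : V) = H := MulAction.stabilizer_quotient H

theorem vertex_stab (v : V) : ∃ n : ℕ, Nonempty (stabilizer G v ≃* Multiplicative (Fin n → ℤ)) := by
  induction v using QuotientGroup.induction_on with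
  | H g =>
    refine ⟨2, ⟨?_⟩⟩
    have h1 : (g : V) = g • ((1 : G) : V) := by
      show _ = ((g * 1 : G) : V)
      rw [mul_one]
    exact ((stabilizerEquivStabilizer h1).symm.trans (MulEquiv.subgroupCongr stab_one)).trans
      vEquiv.symm

theorem edge_aux (g x : G) (y : Bool) (h1 : x ∈ stabilizer G (g : V))
    (h2 : x ∈ stabilizer G ((g * st y : G) : V)) : x ∈ zpowers (g * t * g⁻¹) := by
  rw [mem_stabilizer_iff] at h1 h2
  change ((x * g : G) : V) = (g : V) at h1
  change ((x * (g * st y) : G) : V) = ((g * st y : G) : V) at h2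
  set h : G := g⁻¹ * x * g with hh
  have h3 : h ∈ H := by
    have := (QuotientGroup.eq).1 h1.symm
    rwa [← mul_assoc] at this
  have h4 : ((h * st y : G) : V) = ((st y : G) : V) := by
    have := (QuotientGroup.eq).1 h2.symm
    symm
    rw [QuotientGroup.eq]
    rw [hh]
    convert this using 1
    group
  obtain ⟨f, hf1, hfy, hf⟩ := exists_pot y
  have h5 := hf h y
  rw [h4, hfy] at h5
  have h6 : (h : V) = ((1 : G) : V) := by
    symm
    rw [QuotientGroup.eq]; simpa using h3
  rw [h6, hf1, zero_add] at h5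
  have h7 : h.left = 1 := by
    by_contra hne
    simp [hne] at h5
  have h8 : h = t ^ (h.right.toAdd) := by
    have : (t : G) ^ (h.right.toAdd) = SemidirectProduct.inr (Multiplicative.ofAdd (1 : ℤ) ^ (h.right.toAdd)) := by
      rw [t, map_zpow]
    rw [this, ← ofAdd_zsmul]
    ext
    · simp [h7]
    · simp
  have h9 : x = g * h * g⁻¹ := by rw [hh]; group
  rw [h9, h8]
  refine ⟨h.right.toAdd, ?_⟩
  simp only
  rw [conj_zpow]

theorem edge_stab (u v : V) (huv : T.Adj u v) :
    IsCyclic ↥(stabilizer G u ⊓ stabilizer G v) := by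
  have key : ∃ z : G, stabilizer G u ⊓ stabilizer G v ≤ zpowers z := by
    rcases huv with ⟨g, y, rfl, rfl⟩ | ⟨g, y, rfl, rfl⟩
    · exact ⟨g * t * g⁻¹, fun x hx => edge_aux g x y hx.1 hx.2⟩
    · exact ⟨g * t * g⁻¹, fun x hx => edge_aux g x y hx.2 hx.1⟩
  obtain ⟨z, hz⟩ := key
  exact isCyclic_of_injective (Subgroup.inclusion hz) (Subgroup.inclusion_injective hz)

theorem vertex_orbits : ∃ S : Finset V, ∀ v : V, ∃ g : G, g • v ∈ S := by
  refine ⟨{((1 : G) : V)}, fun v => ?_⟩
  induction v using QuotientGroup.induction_on with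
  | H g =>
    refine ⟨g⁻¹, ?_⟩
    rw [Finset.mem_singleton]
    show ((g⁻¹ * g : G) : V) = _
    rw [inv_mul_cancel]

theorem edge_orbits : ∃ E : Finset (V × V), ∀ u v : V, T.Adj u v →
    ∃ g : G, (g • u, g • v) ∈ E := by
  classical
  refine ⟨{(((1 : G) : V), ((st true : G) : V)), (((1 : G) : V), ((st false : G) : V)),
    (((st true : G) : V), ((1 : G) : V)), (((st false : G) : V), ((1 : G) : V))}, ?_⟩
  rintro u v (⟨g, y, rfl, rfl⟩ | ⟨g, y, rfl, rfl⟩)
  · refine ⟨g⁻¹, ?_⟩
    have e1 : g⁻¹ • (g : V) = ((1 : G) : V) := by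
      show ((g⁻¹ * g : G) : V) = _
      rw [inv_mul_cancel]
    have e2 : g⁻¹ • ((g * st y : G) : V) = ((st y : G) : V) := by
      show ((g⁻¹ * (g * st y) : G) : V) = _
      rw [inv_mul_cancel_left]
    rw [e1, e2]
    cases y <;> simp
  · refine ⟨g⁻¹, ?_⟩
    have e1 : g⁻¹ • (g : V) = ((1 : G) : V) := by
      show ((g⁻¹ * g : G) : V) = _
      rw [inv_mul_cancel]
    have e2 : g⁻¹ • ((g * st y : G) : V) = ((st y : G) : V) := by
      show ((g⁻¹ * (g * st y) : G) : V) = _
      rw [inv_mul_cancel_left]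
    rw [e1, e2]
    cases y <;> simp

end Run7.h181.Gersten
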