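import Pool.Agent.Run7.h181.Gersten.Group

set_option autoImplicit false

namespace Run7.h181.Gersten

open Subgroup

/-- Every function on the oriented edges of the Cayley graph of a free group is a gradient. -/
theorem exists_potential {α : Type} (d : FreeGroup α → α → ℤ) :
    ∃ f : FreeGroup α → ℤ, f 1 = 0 ∧ ∀ w i, f (w * FreeGroup.of i) = f w + d w i := by
  let π : α → Equiv.Perm (FreeGroup α × ℤ) := fun i =>
    { toFun := fun p => (p.1 * FreeGroup.of i, p.2 + d p.1 i)
      invFun := fun p => (p.1 * (FreeGroup.of i)⁻¹, p.2 - d (p.1 * (FreeGroup.of i)⁻¹) i)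
      left_inv := fun p => by ext <;> simp
      right_inv := fun p => by ext <;> simp }
  let ψ : FreeGroup α →* (Equiv.Perm (FreeGroup α × ℤ))ᵐᵒᵖ :=
    FreeGroup.lift (fun i => MulOpposite.op (π i))
  have h1 : ∀ (v : FreeGroup α) (p : FreeGroup α × ℤ), ((ψ v).unop p).1 = p.1 * v := by
    intro v
    induction v using FreeGroup.induction_on with
    | C1 => intro p; simp
    | of i => intro p; simp [ψ, π]
    | inv_of i _ =>
      intro p
      simp only [ψ, map_inv, FreeGroup.lift_apply_of, MulOpposite.unop_inv, MulOpposite.unop_op]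
      rfl
    | mul x y hx hy =>
      intro p
      rw [map_mul, MulOpposite.unop_mul, Equiv.Perm.mul_apply, hy, hx, mul_assoc]
  refine ⟨fun w => ((ψ w).unop (1, 0)).2, by simp, fun w i => ?_⟩
  show ((ψ (w * FreeGroup.of i)).unop (1, 0)).2 = ((ψ w).unop (1, 0)).2 + d w i
  rw [map_mul, MulOpposite.unop_mul, Equiv.Perm.mul_apply]
  have h2 := h1 w (1, 0)
  simp only [one_mul] at h2
  have h3 : (ψ (FreeGroup.of i)).unop = π i := by simp [ψ]
  rw [h3]
  show ((ψ w).unop (1, 0)).2 + d ((ψ w).unop (1, 0)).1 i = _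
  rw [h2]

/-- The vertex group `⟨a, t⟩`. -/
def H : Subgroup G where
  carrier := {x | x.left ∈ zpowers a}
  one_mem' := by simp [Subgroup.one_mem]
  mul_mem' := by
    rintro x y ⟨i, hi⟩ ⟨j, hj⟩
    refine ⟨i + j, ?_⟩
    simp only at hi hj
    simp only [SemidirectProduct.mul_left, Θ_apply, ← hi, ← hj, map_zpow, θ_a, zpow_add]
  inv_mem' := by
    rintro x ⟨i, hi⟩
    refine ⟨-i, ?_⟩
    simp only at hi
    simp only [SemidirectProduct.inv_left, Θ_apply, ← hi, ← map_inv, ← zpow_neg, map_zpow, θ_a]

theorem mem_H {x : G} : x ∈ H ↔ ∃ i : ℤ, a ^ i = x.left := Iff.rfl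

/-- The vertex set of the Bass-Serre tree. -/
abbrev V := G ⧸ H

/-- The two stable letters. -/
def st (y : Bool) : G := bif y then B else C

def stF (y : Bool) : F := bif y then b else c

def stI (y : Bool) : Fin 3 := bif y then 1 else 2

theorem stF_eq (y : Bool) : stF y = FreeGroup.of (stI y) := by cases y <;> rfl

theorem st_left (y : Bool) : (st y).left = stF y := by cases y <;> rfl

theorem st_right (y : Bool) : (st y).right = 1 := by cases y <;> rfl

theorem θ_stF (y : Bool) (n : ℤ) : ∃ k : ℤ, θ n (stF y) = stF y * a ^ k := by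
  cases y
  · exact ⟨2 * n, θ_c n⟩
  · exact ⟨n, θ_b n⟩

/-- Adjacency in the Bass-Serre tree. -/
def R (u v : V) : Prop := ∃ (g : G) (y : Bool), u = (g : V) ∧ v = ((g * st y : G) : V)

/-- The homomorphism on the free group counting the stable letters. -/
def σF : F →* Multiplicative ℤ :=
  FreeGroup.lift ![1, Multiplicative.ofAdd 1, Multiplicative.ofAdd 1]

@[simp] theorem σF_a : σF a = 1 := by simp [σF, a]
@[simp] theorem σF_b : σF b = Multiplicative.ofAdd 1 := by simp [σF, b]
@[simp] theorem σF_c : σF c = Multiplicative.ofAdd 1 := by simp [σF, c]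

/-- The homomorphism counting the stable letters. -/
def σ : G →* Multiplicative ℤ :=
  SemidirectProduct.lift σF 1
    (by
      intro n
      apply F_hom_ext <;> simp)

theorem σ_inl (w : F) : σ (SemidirectProduct.inl w) = σF w := by
  simp [σ]

theorem σ_st (y : Bool) : σ (st y) = Multiplicative.ofAdd 1 := by
  cases y
  · show σ (SemidirectProduct.inl c) = _
    rw [σ_inl]; simp
  · show σ (SemidirectProduct.inl b) = _
    rw [σ_inl]; simp

theorem σ_H {x : G} (hx : x ∈ H) : σ x = 1 := by
  obtain ⟨i, hi⟩ := mem_H.1 hx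
  simp only [σ, SemidirectProduct.lift, MonoidHom.coe_mk, OneHom.coe_mk]
  rw [← hi]
  simp

/-- The height function on the vertices. -/
def ht : V → ℤ := fun v => Quotient.liftOn' v (fun g => (σ g).toAdd) (by
  intro g h hgh
  have h1 : g⁻¹ * h ∈ H := by
    rw [← QuotientGroup.leftRel_apply]; exact hgh
  have h2 := σ_H h1
  rw [map_mul, map_inv, inv_mul_eq_one] at h2
  show (σ g).toAdd = (σ h).toAdd
  rw [h2])

theorem ht_mk (g : G) : ht (g : V) = (σ g).toAdd := rfl

theorem ht_R {u v : V} (h : R u v) : ht v = ht u + 1 := by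
  obtain ⟨g, y, rfl, rfl⟩ := h
  rw [ht_mk, ht_mk, map_mul, σ_st, toAdd_mul, toAdd_ofAdd]

theorem ht_smul (g : G) (v : V) : ht (g • v) = (σ g).toAdd + ht v := by
  induction v using QuotientGroup.induction_on with
  | H h =>
    show ht ((g * h : G) : V) = _
    rw [ht_mk, ht_mk, map_mul, toAdd_mul]

/-- The Bass-Serre tree. -/
def T : SimpleGraph V where
  Adj u v := R u v ∨ R v u
  symm := ⟨fun u v h => h.symm⟩
  loopless := ⟨fun u h => by
    rcases h with h | h <;>
    · have := ht_R h
      omega⟩

theorem R_smul {u v : V} (g : G) (h : R u v) : R (g • u) (g • v) := by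
  obtain ⟨k, y, rfl, rfl⟩ := h
  exact ⟨g * k, y, rfl, by rw [mul_assoc]; rfl⟩

theorem T_smul (g : G) (u v : V) (h : T.Adj u v) : T.Adj (g • u) (g • v) := by
  rcases h with h | h
  · exact Or.inl (R_smul g h)
  · exact Or.inr (R_smul g h)

theorem no_inversion (g : G) (u v : V) (h : T.Adj u v) : ¬ (g • u = v ∧ g • v = u) := by
  rintro ⟨h1, h2⟩
  have e1 := ht_smul g u
  have e2 := ht_smul g v
  rw [h1] at e1
  rw [h2] at e2
  rcases h with h | h
  · have := ht_R h; omega
  · have := ht_R h; omega

/-- the potential attached to a stable letter -/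
theorem exists_pot (y : Bool) : ∃ f : V → ℤ,
    f ((1 : G) : V) = 0 ∧ f ((st y : G) : V) = 1 ∧
    ∀ (g : G) (z : Bool), f ((g * st z : G) : V) = f (g : V) +
      (if z = y ∧ g.left = 1 then 1 else 0) := by
  classical
  obtain ⟨f, hf1, hf⟩ := exists_potential (α := Fin 3)
    (fun w i => if i = stI y ∧ w = 1 then 1 else 0)
  have ha : ∀ w, f (w * a) = f w := by
    intro w
    have h0 : (0 : Fin 3) ≠ stI y := by cases y <;> decide
    rw [a, hf w 0]
    simp [h0]
  have ha' : ∀ w, f (w * a⁻¹) = f w := by
    intro w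
    have := ha (w * a⁻¹)
    rw [inv_mul_cancel_right] at this
    exact this.symm
  have han : ∀ (k : ℤ) w, f (w * a ^ k) = f w := by
    intro k
    induction k using Int.induction_on with
    | zero => intro w; simp
    | succ n ih => intro w; rw [zpow_add, zpow_one, ← mul_assoc, ha, ih]
    | pred n ih => intro w; rw [zpow_sub, zpow_one, ← mul_assoc, ha', ih]
  have hy : ∀ (w : F) (z : Bool), f (w * stF z) = f w + (if z = y ∧ w = 1 then 1 else 0) := by
    intro w z
    rw [stF_eq, hf]
    congr 1
    have : stI z = stI y ↔ z = y := by cases z <;> cases y <;> decide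
    simp only [this]
  let φ : V → ℤ := fun v => Quotient.liftOn' v (fun g => f g.left) (by
    intro g h hgh
    have h1 : g⁻¹ * h ∈ H := by
      rw [← QuotientGroup.leftRel_apply]; exact hgh
    obtain ⟨i, hi⟩ := mem_H.1 h1
    have h2 : h = g * (g⁻¹ * h) := by group
    show f g.left = f h.left
    rw [h2, SemidirectProduct.mul_left, ← hi, Θ_apply, map_zpow, θ_a, han])
  have hφ : ∀ g : G, φ (g : V) = f g.left := fun g => rfl
  have hstep : ∀ (g : G) (z : Bool), φ ((g * st z : G) : V) = φ (g : V) +
      (if z = y ∧ g.left = 1 then 1 else 0) := by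
    intro g z
    rw [hφ, hφ, SemidirectProduct.mul_left, Θ_apply, st_left]
    obtain ⟨k, hk⟩ := θ_stF z g.right.toAdd
    rw [hk, ← mul_assoc, han, hy]
  refine ⟨φ, ?_, ?_, hstep⟩
  · rw [hφ]; simpa using hf1
  · have := hstep 1 y
    rw [one_mul] at this
    rw [this, hφ]
    simp [hf1]

theorem mk_of_left_one {g : G} (hg : g.left = 1) : (g : V) = ((1 : G) : V) := by
  rw [QuotientGroup.eq]
  refine mem_H.2 ⟨0, ?_⟩
  simp [hg]

theorem mk_st_of_left_one {g : G} (hg : g.left = 1) (y : Bool) :
    ((g * st y : G) : V) = ((st y : G) : V) := by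
  symm
  rw [QuotientGroup.eq]
  obtain ⟨k, hk⟩ := θ_stF y g.right.toAdd
  refine mem_H.2 ⟨k, ?_⟩
  rw [SemidirectProduct.mul_left, SemidirectProduct.mul_left, Θ_apply, Θ_apply,
    SemidirectProduct.inv_left, SemidirectProduct.inv_right, st_right, hg, st_left]
  simp [hk, θ_zero_apply]

theorem bridge_aux (g : G) (y : Bool) :
    ¬ (T.deleteEdges {s((g : V), ((g * st y : G) : V))}).Reachable (g : V)
      ((g * st y : G) : V) := by
  obtain ⟨f, hf1, hfy, hf⟩ := exists_pot y
  intro hreach
  -- `f (g⁻¹ • ·)` is constant along the edges of the graph without the edge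
  have key : ∀ u v : V, (T.deleteEdges {s((g : V), ((g * st y : G) : V))}).Adj u v →
      f (g⁻¹ • u) = f (g⁻¹ • v) := by
    have main : ∀ u v : V, R u v → s(u, v) ≠ s((g : V), ((g * st y : G) : V)) →
        f (g⁻¹ • u) = f (g⁻¹ • v) := by
      rintro u v ⟨k, z, rfl, rfl⟩ hne
      have e1 : g⁻¹ • ((k : G) : V) = ((g⁻¹ * k : G) : V) := rfl
      have e2 : g⁻¹ • ((k * st z : G) : V) = (((g⁻¹ * k) * st z : G) : V) := by
        rw [mul_assoc]; rfl
      rw [e1, e2, hf]
      split_ifs with hc
      · exfalso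
        obtain ⟨rfl, hl⟩ := hc
        apply hne
        have h1 : ((k : G) : V) = (g : V) := by
          have := mk_of_left_one hl
          have h2 : g • (((g⁻¹ * k : G)) : V) = g • ((1 : G) : V) := by rw [this]
          have h3 : g • (((g⁻¹ * k : G)) : V) = ((k : G) : V) := by
            show ((g * (g⁻¹ * k) : G) : V) = _
            rw [mul_inv_cancel_left]
          have h4 : g • ((1 : G) : V) = (g : V) := by
            show ((g * 1 : G) : V) = _
            rw [mul_one]
          rw [← h3, h2, h4]
        have h2 : ((k * st z : G) : V) = ((g * st z : G) : V) := by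
          have := mk_st_of_left_one hl z
          have h2 : g • (((g⁻¹ * k) * st z : G) : V) = g • ((st z : G) : V) := by rw [this]
          have h3 : g • (((g⁻¹ * k) * st z : G) : V) = ((k * st z : G) : V) := by
            show ((g * ((g⁻¹ * k) * st z) : G) : V) = _
            congr 1
            group
          rw [← h3, h2]; rfl
        rw [h1, h2]
      · simp
    intro u v huv
    rw [SimpleGraph.deleteEdges_adj] at huv
    obtain ⟨hadj, hne⟩ := huv
    simp only [Set.mem_singleton_iff] at hne
    rcases hadj with h | h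
    · exact main u v h hne
    · exact (main v u h (by rwa [Sym2.eq_swap])).symm
  have hconst : ∀ u v : V, (T.deleteEdges {s((g : V), ((g * st y : G) : V))}).Reachable u v →
      f (g⁻¹ • u) = f (g⁻¹ • v) := by
    rintro u v ⟨p⟩
    induction p with
    | nil => rfl
    | cons h _ ih => rw [key _ _ h, ih]
  have := hconst _ _ hreach
  have e1 : g⁻¹ • ((g : G) : V) = ((1 : G) : V) := by
    show ((g⁻¹ * g : G) : V) = _
    rw [inv_mul_cancel]
  have e2 : g⁻¹ • ((g * st y : G) : V) = ((st y : G) : V) := by
    show ((g⁻¹ * (g * st y) : G) : V) = _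
    rw [inv_mul_cancel_left]
  rw [e1, e2, hf1, hfy] at this
  exact absurd this (by norm_num)

theorem T_acyclic : T.IsAcyclic := by
  rw [SimpleGraph.isAcyclic_iff_forall_isBridge]
  intro e
  induction e with
  | h u v =>
    intro h
    rw [SimpleGraph.mem_edgeSet] at h
    rcases h with ⟨g, y, rfl, rfl⟩ | ⟨g, y, rfl, rfl⟩
    · rw [SimpleGraph.isBridge_iff]; exact bridge_aux g y
    · rw [Sym2.eq_swap, SimpleGraph.isBridge_iff]; exact bridge_aux g y

theorem reach_F (w : F) : ∀ g : G, T.Reachable (g : V) ((g * SemidirectProduct.inl w : G) : V) := by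
  induction w using FreeGroup.induction_on with
  | C1 => intro g; simp
  | of i =>
    intro g
    fin_cases i
    · have : ((g * SemidirectProduct.inl a : G) : V) = (g : V) := by
        symm
        rw [QuotientGroup.eq, inv_mul_cancel_left]
        exact mem_H.2 ⟨1, by simp⟩
      show T.Reachable (g : V) ((g * SemidirectProduct.inl a : G) : V)
      rw [this]
    · exact SimpleGraph.Adj.reachable (Or.inl ⟨g, true, rfl, rfl⟩)
    · exact SimpleGraph.Adj.reachable (Or.inl ⟨g, false, rfl, rfl⟩)
  | inv_of i ih =>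
    intro g
    have := ih (g * SemidirectProduct.inl (FreeGroup.of i)⁻¹)
    rw [mul_assoc, ← map_mul, inv_mul_cancel, map_one, mul_one] at this
    exact this.symm
  | mul x y hx hy =>
    intro g
    have h1 := hx g
    have h2 := hy (g * SemidirectProduct.inl x)
    rw [mul_assoc, ← map_mul] at h2
    exact h1.trans h2

theorem T_connected : T.Connected := by
  haveI : Nonempty V := ⟨((1 : G) : V)⟩
  have h1 : ∀ v : V, T.Reachable ((1 : G) : V) v := by
    intro v
    induction v using QuotientGroup.induction_on with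
    | H g =>
      have := reach_F g.left 1
      rw [one_mul] at this
      have h2 : ((SemidirectProduct.inl g.left : G) : V) = (g : V) := by
        rw [QuotientGroup.eq]
        refine mem_H.2 ⟨0, ?_⟩
        simp [θ_zero_apply]
      rwa [h2] at this
  exact ⟨fun u v => (h1 u).symm.trans (h1 v)⟩

theorem T_isTree : T.IsTree := ⟨T_connected, T_acyclic⟩

end Run7.h181.Gersten
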